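import Pool.Agent.H35.FC.Base

/-!
# Contexts with unique completions for finite complete codes

For a finite complete code `C` there are words `l ∈ C*` and `r` such that for every word `w` exactly
one completion `v` of the codeword covering the end of `l w` admits the right context `r`.
-/

set_option autoImplicit false

namespace Pool.Agent.H89.ML

open Pool.Agent.H35.FC (IsCode star_nil star_append star_of_mem)

/-- The completions of the codeword which covers the last letter of `x`. -/
def T {α : Type} (C : Set (List α)) (x : List α) : Set (List α) :=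
  {v | ∃ X p : List α, X ∈ H35.FC.Star C ∧ p ≠ [] ∧ x = X ++ p ∧ p ++ v ∈ C}

/-- `r` is a left factor of a word of `v C*`. -/
def Acc {α : Type} (C : Set (List α)) (r v : List α) : Prop :=
  ∃ z Y : List α, Y ∈ H35.FC.Star C ∧ r ++ z = v ++ Y

section

variable {α : Type} {C : Set (List α)}

private lemma cut (F : List (List α)) (a b : List α) (ha : a ≠ []) (h : F.flatten = a ++ b) :
    ∃ (F1 : List (List α)) (p e : List α) (F2 : List (List α)),
      F = F1 ++ (p ++ e) :: F2 ∧ p ≠ [] ∧ a = F1.flatten ++ p ∧ b = e ++ F2.flatten := by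
  induction F generalizing a with
  | nil =>
    rw [List.flatten_nil] at h
    exact absurd (List.append_eq_nil_iff.1 h.symm).1 ha
  | cons c F ih =>
    rw [List.flatten_cons] at h
    rcases List.append_eq_append_iff.1 h with ⟨t, h1, h2⟩ | ⟨t, h1, h2⟩
    · -- a = c ++ t
      by_cases ht : t = []
      · subst ht
        rw [List.append_nil] at h1
        rw [List.nil_append] at h2
        exact ⟨[], c, [], F, by simp, by rw [← h1]; exact ha, by simpa using h1,
          by simpa using h2.symm⟩
      · obtain ⟨F1, p, e, F2, e1, e2, e3, e4⟩ := ih t ht h2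
        exact ⟨c :: F1, p, e, F2, by rw [e1]; rfl, e2,
          by rw [h1, e3, List.flatten_cons, List.append_assoc], e4⟩
    · exact ⟨[], a, t, F, by rw [h1]; rfl, ha, by simp, h2⟩

private lemma uniq (F1 F1' M M' : List (List α)) (p v p' v' : List α)
    (h : F1 ++ (p ++ v) :: M = F1' ++ (p' ++ v') :: M') (hf : F1.flatten ++ p = F1'.flatten ++ p')
    (hp : p ≠ []) (hp' : p' ≠ []) : v = v' := by
  induction F1 generalizing F1' with
  | nil =>
    rcases F1' with _ | ⟨c, F1'⟩
    · simp only [List.nil_append, List.flatten_nil, List.cons.injEq] at h hf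
      have h1 := h.1
      rw [hf] at h1
      exact List.append_cancel_left h1
    · exfalso
      simp only [List.nil_append, List.flatten_nil, List.cons_append, List.cons.injEq,
        List.flatten_cons] at h hf
      have h1 := congrArg List.length h.1
      have h2 := congrArg List.length hf
      simp only [List.length_append] at h1 h2
      have := List.length_pos_iff.2 hp'
      omega
  | cons c F1 ih =>
    rcases F1' with _ | ⟨c', F1'⟩
    · exfalso
      simp only [List.nil_append, List.flatten_nil, List.cons_append, List.cons.injEq,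
        List.flatten_cons] at h hf
      have h1 := congrArg List.length h.1
      have h2 := congrArg List.length hf
      simp only [List.length_append] at h1 h2
      have := List.length_pos_iff.2 hp
      omega
    · rw [List.cons_append, List.cons_append, List.cons.injEq] at h
      rw [List.flatten_cons, List.flatten_cons, h.1, List.append_assoc, List.append_assoc] at hf
      exact ih F1' h.2 (List.append_cancel_left hf)

/-- `(E1)` -/
theorem exists_left (hfin : C.Finite) (hne : C.Nonempty) (hn : [] ∉ C)
    (hcomp : ∀ w : List α, ∃ u v : List α, u ++ w ++ v ∈ H35.FC.Star C) :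
    ∃ l : List α, l ∈ H35.FC.Star C ∧ l ≠ [] ∧ ∀ w : List α, ∃ z : List α, l ++ w ++ z ∈ H35.FC.Star C := by
  by_contra hcon
  push Not at hcon
  have h1 : ∀ x ∈ H35.FC.Star C, ∃ w : List α, ∀ z : List α, x ++ w ++ z ∉ H35.FC.Star C := by
    intro x hx
    by_cases hx0 : x = []
    · obtain ⟨c, hc⟩ := hne
      have hc0 : c ≠ [] := fun h => hn (h ▸ hc)
      obtain ⟨w, hw⟩ := hcon c (star_of_mem hc) hc0
      refine ⟨w, fun z hz => hw z ?_⟩
      rw [hx0, List.nil_append] at hz
      rw [List.append_assoc]
      exact star_append (star_of_mem hc) hz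
    · exact hcon x hx hx0
  have h2 : ∀ Q : List (List α), ∃ w : List α, ∀ q ∈ Q, ∀ z Y : List α, Y ∈ H35.FC.Star C →
      w ++ z ≠ q ++ Y := by
    intro Q
    induction Q with
    | nil => exact ⟨[], by simp⟩
    | cons q Q ih =>
      obtain ⟨w, hw⟩ := ih
      by_cases h : ∃ z Y : List α, Y ∈ H35.FC.Star C ∧ w ++ z = q ++ Y
      · obtain ⟨z, Y, hY, he⟩ := h
        obtain ⟨w', hw'⟩ := h1 Y hY
        refine ⟨w ++ z ++ w', fun q' hq' z' Y' hY' he' => ?_⟩
        rcases List.mem_cons.1 hq' with rfl | hq'
        · rw [he, List.append_assoc, List.append_assoc] at he'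
          have h3 := List.append_cancel_left he'
          apply hw' z'
          rw [List.append_assoc, h3]
          exact hY'
        · exact hw q' hq' (z ++ w' ++ z') Y' hY' (by rw [← he']; simp)
      · push Not at h
        refine ⟨w, fun q' hq' z' Y' hY' => ?_⟩
        rcases List.mem_cons.1 hq' with rfl | hq'
        · exact h z' Y' hY'
        · exact hw q' hq' z' Y' hY'
  obtain ⟨w, hw⟩ := h2 ([] :: hfin.toFinset.toList.flatMap List.tails)
  obtain ⟨u, v, huv⟩ := hcomp w
  rw [List.append_assoc] at huv
  rcases Pool.Agent.H35.FC.split α C u (w ++ v) huv with ⟨-, h3⟩ | ⟨X, p, s, Y, -, hY, -, -, hps,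
    -, he⟩
  · exact hw [] (by simp) v (w ++ v) h3 rfl
  · refine hw s ?_ v Y hY he
    refine List.mem_cons_of_mem _ (List.mem_flatMap.2 ⟨p ++ s, by simpa using hps, ?_⟩)
    rw [List.mem_tails]
    exact List.suffix_append p s

private lemma pow_star {x : List α} (hx : x ∈ H35.FC.Star C) (n : ℕ) :
    (List.replicate n x).flatten ∈ H35.FC.Star C := by
  induction n with
  | zero => exact star_nil
  | succ n ih =>
    rw [List.replicate_succ, List.flatten_cons]
    exact star_append hx ih

private lemma rep_flat {β : Type} (L : List (List β)) (n : ℕ) :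
    (List.replicate n L).flatten.flatten = (List.replicate n L.flatten).flatten := by
  induction n with
  | zero => simp
  | succ n ih =>
    rw [List.replicate_succ, List.flatten_cons, List.flatten_append, ih, List.replicate_succ,
      List.flatten_cons]

private lemma rep_add {β : Type} (L : List β) (n m : ℕ) :
    (List.replicate (n + m) L).flatten =
      (List.replicate n L).flatten ++ (List.replicate m L).flatten := by
  rw [List.replicate_add, List.flatten_append]

/-- `(E1)` and `(E2)` -/
theorem ctx (hfin : C.Finite) (hC : IsCode C) (hne : C.Nonempty)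
    (hcomp : ∀ w : List α, ∃ u v : List α, u ++ w ++ v ∈ H35.FC.Star C) :
    ∃ l r : List α, l ∈ H35.FC.Star C ∧ l ≠ [] ∧
      ∀ w : List α, ∃! v, v ∈ T C (l ++ w) ∧ Acc C r v := by
  classical
  obtain ⟨l, hl, hl0, hlw⟩ := exists_left hfin hne hC.1 hcomp
  -- the suffixes of codewords
  obtain ⟨S, hSfin, hS⟩ : ∃ S : Set (List α), S.Finite ∧ ∀ p v : List α, p ++ v ∈ C → v ∈ S :=
    ⟨⋃ c ∈ C, {q | q ∈ c.tails}, hfin.biUnion (fun c _ => List.finite_toSet c.tails),
      fun p v h => Set.mem_biUnion h (by
        rw [Set.mem_ofPred_eq, List.mem_tails]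
        exact List.suffix_append p v)⟩
  have hTS : ∀ x v : List α, v ∈ T C x → v ∈ S := fun x v ⟨_, p, _, _, _, h⟩ => hS p v h
  -- the right context
  obtain ⟨r, hr⟩ : ∃ r : List α, ∀ r' : List α,
      {v ∈ S | Acc C r v}.ncard ≤ {v ∈ S | Acc C r' v}.ncard := by
    have h1 : ∃ n : ℕ, ∃ r : List α, {v ∈ S | Acc C r v}.ncard = n := ⟨_, [], rfl⟩
    obtain ⟨r, h2⟩ := Nat.find_spec h1
    refine ⟨r, fun r' => ?_⟩
    rw [h2]
    exact Nat.find_min' h1 ⟨r', rfl⟩
  have hext : ∀ v ∈ S, Acc C r v → ∀ x : List α, Acc C (r ++ x) v := by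
    intro v hv hrv x
    have h1 : {v ∈ S | Acc C (r ++ x) v} ⊆ {v ∈ S | Acc C r v} := by
      rintro v' ⟨hv', z, Y, hY, he⟩
      exact ⟨hv', x ++ z, Y, hY, by rw [← he, List.append_assoc]⟩
    have h2 := Set.eq_of_subset_of_ncard_le h1 (hr (r ++ x)) (hSfin.subset (Set.sep_subset _ _))
    have h3 : v ∈ {v ∈ S | Acc C (r ++ x) v} := by
      rw [h2]
      exact ⟨hv, hrv⟩
    exact h3.2
  refine ⟨l, r, hl, hl0, fun w => ?_⟩
  have hlw0 : l ++ w ≠ [] := fun h => hl0 (List.append_eq_nil_iff.1 h).1
  -- existence
  obtain ⟨v, hv⟩ : ∃ v, v ∈ T C (l ++ w) ∧ Acc C r v := by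
    obtain ⟨z, F, hF, he⟩ := hlw (w ++ r)
    obtain ⟨F1, p, e, F2, e1, e2, e3, e4⟩ := cut F (l ++ w) (r ++ z) hlw0 (by rw [he]; simp)
    refine ⟨e, ⟨F1.flatten, p, ⟨F1, fun c hc => hF c (by rw [e1]; simp [hc]), rfl⟩, e2, e3,
      hF _ (by rw [e1]; simp)⟩, z, F2.flatten, ⟨F2, fun c hc => hF c (by rw [e1]; simp [hc]), rfl⟩,
      e4⟩
  refine ⟨v, hv, fun v2 hv2 => ?_⟩
  by_contra hne2
  have hne1 : v2 ≠ v := hne2
  obtain ⟨⟨X1, p1, ⟨L1, hL1, rfl⟩, hp1, he1, hc1⟩, u1, c1, ⟨Lc, hLc, rfl⟩, hu1⟩ := hv
  have hv2S : v2 ∈ S := hTS _ _ hv2.1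
  obtain ⟨⟨X2, p2, ⟨L2, hL2, rfl⟩, hp2, he2, hc2⟩, hacc2⟩ := hv2
  -- the word x
  set Lx : List (List α) := L1 ++ (p1 ++ v) :: Lc with hLx
  have hLxC : ∀ c ∈ Lx, c ∈ C := by
    intro c hc
    rw [hLx, List.mem_append, List.mem_cons] at hc
    rcases hc with h | h | h
    · exact hL1 c h
    · rw [h]; exact hc1
    · exact hLc c h
  have hxf : Lx.flatten = l ++ w ++ (r ++ u1) := by
    rw [hLx, List.flatten_append, List.flatten_cons, hu1, he1]
    simp
  have hxC : Lx.flatten ∈ H35.FC.Star C := ⟨Lx, hLxC, rfl⟩
  -- the completions e_j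
  have key : ∀ j : ℕ, ∃ (F1 M : List (List α)) (p e : List α), (∀ c ∈ F1, c ∈ C) ∧
      p ++ e ∈ C ∧ p ≠ [] ∧ F1 ++ [p ++ e] = L2 ++ (p2 ++ v2) :: M ∧
      F1.flatten ++ p = (List.replicate (j + 1) Lx.flatten).flatten ++ (l ++ w) := by
    intro j
    obtain ⟨z, Y, ⟨LY, hLY, rfl⟩, hz⟩ := hext v2 hv2S hacc2
      (u1 ++ ((List.replicate j Lx.flatten).flatten ++ (l ++ w)))
    have hF : (L2 ++ (p2 ++ v2) :: LY).flatten =
        ((List.replicate (j + 1) Lx.flatten).flatten ++ (l ++ w)) ++ z := by
      rw [List.flatten_append, List.flatten_cons, List.replicate_succ, List.flatten_cons]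
      have h1 : L2.flatten ++ (p2 ++ v2 ++ LY.flatten) =
          (L2.flatten ++ p2) ++ (v2 ++ LY.flatten) := by simp
      rw [h1, ← he2, ← hz]
      nth_rewrite 2 [hxf]
      simp
    obtain ⟨F1, p, e, F2, e1, e2, e3, e4⟩ := cut _ _ z (by
      intro h
      exact hlw0 (List.append_eq_nil_iff.1 h).2) hF
    have hall : ∀ c ∈ F1 ++ (p ++ e) :: F2, c ∈ C := by
      intro c hc
      rw [← e1, List.mem_append, List.mem_cons] at hc
      rcases hc with h | h | h
      · exact hL2 c h
      · rw [h]; exact hc2
      · exact hLY c h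
    have hM : ∃ M : List (List α), F1 ++ [p ++ e] = L2 ++ (p2 ++ v2) :: M := by
      rcases List.append_eq_append_iff.1 e1 with ⟨t, h1, h2⟩ | ⟨t, h1, h2⟩
      · rcases t with _ | ⟨c, t⟩
        · rw [List.nil_append, List.cons.injEq] at h2
          exact ⟨[], by rw [h1, List.append_nil, h2.1]⟩
        · rw [List.cons_append, List.cons.injEq] at h2
          exact ⟨t ++ [p ++ e], by rw [h1, h2.1]; simp⟩
      · rcases t with _ | ⟨c, t⟩
        · rw [List.nil_append, List.cons.injEq] at h2
          rw [List.append_nil] at h1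
          exact ⟨[], by rw [h1, h2.1]⟩
        · exfalso
          rw [List.cons_append, List.cons.injEq] at h2
          have h3 := congrArg List.length he2
          have h4 := congrArg List.length e3
          have h5 := congrArg (fun L : List (List α) => L.flatten.length) h1
          simp only [List.flatten_append, List.flatten_cons, List.length_append, ← h2.1]
            at h3 h4 h5
          have := List.length_pos_iff.2 hp2
          omega
    obtain ⟨M, hM⟩ := hM
    exact ⟨F1, M, p, e, fun c hc => hall c (by simp [hc]), hall _ (by simp), e2, hM, e3.symm⟩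
  choose F1 M p e hF1 hpe hp0 hFM hFf using key
  -- n completions of x^n l w
  set n := hSfin.toFinset.card + 1 with hn
  let G : ℕ → List (List α) := fun k =>
    (List.replicate k Lx).flatten ++ (F1 (n - 1 - k) ++ [p (n - 1 - k) ++ e (n - 1 - k)])
  have hGC : ∀ k, ∀ c ∈ G k, c ∈ C := by
    intro k c hc
    simp only [G, List.mem_append, List.mem_flatten, List.mem_replicate,
      List.mem_singleton] at hc
    rcases hc with ⟨L, ⟨-, rfl⟩, h⟩ | h | h
    · exact hLxC c h
    · exact hF1 _ c h
    · rw [h]; exact hpe _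
  have hGf : ∀ k, k < n → (G k).flatten =
      (List.replicate n Lx.flatten).flatten ++ (l ++ w) ++ e (n - 1 - k) := by
    intro k hk
    simp only [G]
    rw [List.flatten_append, List.flatten_append, List.flatten_singleton, rep_flat,
      ← List.append_assoc (F1 (n - 1 - k)).flatten, hFf]
    have h1 : n = k + (n - 1 - k + 1) := by omega
    have h2 : (List.replicate n Lx.flatten).flatten = (List.replicate k Lx.flatten).flatten ++
        (List.replicate (n - 1 - k + 1) Lx.flatten).flatten := by
      rw [← rep_add, ← h1]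
    rw [h2]
    simp only [List.append_assoc]
  have hinj : ∀ k k', k < k' → k' < n → e (n - 1 - k) ≠ e (n - 1 - k') := by
    intro k k' hkk hk' he
    have h1 : (G k).flatten = (G k').flatten := by
      rw [hGf k (by omega), hGf k' hk', he]
    have h2 := hC.2 _ _ (hGC k) (hGC k') h1
    simp only [G] at h2
    rw [hFM, hFM, show k' = k + (1 + (k' - k - 1)) by omega, rep_add, List.append_assoc] at h2
    have h3 := List.append_cancel_left h2
    rw [rep_add, List.replicate_one, List.flatten_singleton, hLx, List.append_assoc,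
      List.append_assoc, List.cons_append] at h3
    exact hne1 (uniq L2 L1 _ _ p2 v2 p1 v h3 (by rw [← he2, ← he1]) hp2 hp1)
  have hmem : ∀ k, e (n - 1 - k) ∈ hSfin.toFinset := by
    intro k
    rw [Set.Finite.mem_toFinset]
    exact hS _ _ (hpe _)
  have hcard : (Finset.range n).card ≤ hSfin.toFinset.card := by
    refine Finset.card_le_card_of_injOn (fun k => e (n - 1 - k)) (fun k _ => hmem k) ?_
    intro k hk k' hk' he
    have hk1 : k < n := by simpa using hk
    have hk2 : k' < n := by simpa using hk'
    rcases lt_trichotomy k k' with h | h | h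
    · exact absurd he (hinj k k' h hk2)
    · exact h
    · exact absurd he.symm (hinj k' k h hk1)
  rw [Finset.card_range, hn] at hcard
  omega

end

end Pool.Agent.H89.ML
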